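import Pool.Agent.H15.Dit2

set_option autoImplicit false
open Set Cardinal

universe u

namespace Pool.Agent.Results.MP_537c7a_lc.NoLadder

/-- breadth at most two -/
def Breadth2 (S : Type u) [SemilatticeSup S] : Prop :=
  ∀ (X : Finset S) (hX : X.Nonempty), ∃ Y ⊆ X, Y.card ≤ 2 ∧
    ∃ hY : Y.Nonempty, Y.sup' hY id = X.sup' hX id

/-- every join-semilattice of breadth at most two and size lam+ has a principal ideal of size
at least lam -/
def NoEx (lam : Cardinal.{u}) : Prop :=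
  ∀ (S : Type u) [SemilatticeSup S], Breadth2 S → #S = Order.succ lam → ∃ a : S, lam ≤ #(Iic a)

/-- the Chang property from (lam+, lam) to (aleph_1, aleph_0) -/
def Chang (lam : Cardinal.{u}) : Prop :=
  ∀ (L : FirstOrder.Language.{0, 0}) [Countable L.Symbols] (M : Type u) [L.Structure M]
    (r : L.Relations 1), #M = Order.succ lam →
    #{m : M | FirstOrder.Language.Structure.RelMap r ![m]} = lam →
    ∃ N : L.ElementarySubstructure M, #N = ℵ₁ ∧
      #{m : M | m ∈ N ∧ FirstOrder.Language.Structure.RelMap r ![m]} = ℵ₀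

/-- U is a normal, fine, kappa-complete ultrafilter on the subsets of T of size below kappa -/
def NormalMeasure (κ : Cardinal.{u}) (T : Type u) (U : Ultrafilter (Set T)) : Prop :=
  {x : Set T | #x < κ} ∈ U ∧
  (∀ S : Set (Set (Set T)), #S < κ → (∀ s ∈ S, s ∈ U) → ⋂₀ S ∈ U) ∧
  (∀ t : T, {x : Set T | t ∈ x} ∈ U) ∧
  (∀ f : Set T → T, {x | f x ∈ x} ∈ U → ∃ t, {x | f x = t} ∈ U)

/-- supercompact cardinal -/
def Supercompact (κ : Cardinal.{u}) : Prop :=
  ℵ₀ < κ ∧ ∀ T : Type u, κ ≤ #T → ∃ U : Ultrafilter (Set T), NormalMeasure κ T U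

theorem tri {S : Type u} [SemilatticeSup S] (h : Breadth2 S) (a b c : S) :
    a ≤ b ⊔ c ∨ b ≤ a ⊔ c ∨ c ≤ a ⊔ b := by
  classical
  by_contra hc
  push Not at hc
  obtain ⟨h1, h2, h3⟩ := hc
  obtain ⟨Y, hY, hcard, hne, hs⟩ := h {a, b, c} (by simp)
  have key : ∀ x ∈ ({a, b, c} : Finset S), ∀ s : S, ¬ x ≤ s →
      (∀ y ∈ ({a, b, c} : Finset S), y ≠ x → y ≤ s) → x ∈ Y := by
    intro x hx s hxs hy
    by_contra hxY
    apply hxs
    have e1 : x ≤ Y.sup' hne id := hs ▸ Finset.le_sup' id hx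
    exact e1.trans (Finset.sup'_le _ _ fun y hy' => hy y (hY hy') fun e => hxY (e ▸ hy'))
  have ha : a ∈ Y := key a (by simp) _ h1 (by
    intro y hy hne; simp only [Finset.mem_insert, Finset.mem_singleton] at hy
    rcases hy with rfl | rfl | rfl <;> simp_all)
  have hb : b ∈ Y := key b (by simp) _ h2 (by
    intro y hy hne; simp only [Finset.mem_insert, Finset.mem_singleton] at hy
    rcases hy with rfl | rfl | rfl <;> simp_all)
  have hc' : c ∈ Y := key c (by simp) _ h3 (by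
    intro y hy hne; simp only [Finset.mem_insert, Finset.mem_singleton] at hy
    rcases hy with rfl | rfl | rfl <;> simp_all)
  have hab : a ≠ b := fun e => h1 (e ▸ le_sup_left)
  have hac : a ≠ c := fun e => h1 (e ▸ le_sup_right)
  have hbc : b ≠ c := fun e => h2 (e ▸ le_sup_right)
  have : 2 < Y.card := Finset.two_lt_card.2 ⟨a, ha, b, hb, c, hc', hab, hac, hbc⟩
  omega

theorem basics {lam : Cardinal.{u}} (h0 : ℵ₀ ≤ lam) :
    NoMaxOrder (Order.succ lam).ord.ToType ∧ (∀ a : (Order.succ lam).ord.ToType, #(Iio a) ≤ lam) ∧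
      lam < Order.cof (Order.succ lam).ord.ToType := by
  have h3 : lam < Order.cof (Order.succ lam).ord.ToType := by
    rw [Ordinal.cof_toType, (isRegular_succ h0).cof_ord]; exact Order.lt_succ lam
  refine ⟨?_, fun a => Order.lt_succ_iff.1 (Cardinal.mk_Iio_toType_ord_lt a), h3⟩
  exact Cardinal.noMaxOrder (h0.trans (Order.le_succ lam))

theorem chang_case (lam : Cardinal.{u}) (h1 : ℵ₀ < lam) (hc : lam.ord.cof = ℵ₀) (hch : Chang lam) :
    NoEx lam := by
  intro S _ hb hS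
  by_contra hi
  push Not at hi
  have hsing : lam.IsSingular := ⟨h1.le, by rw [hc]; exact h1.ne⟩
  obtain ⟨b1, b2, b3⟩ := basics h1.le
  obtain ⟨I, F, C, hI, hC, h⟩ := Pool.Agent.H15.Inj.dit_sl (L := lam.ord.ToType) h1
    (fun μ hμ => hsing.isSuccLimit.succ_lt hμ) (by simp) b2 b3 (by simpa using hS) hi (tri hb)
  rw [hc] at hI
  have : Countable I := Cardinal.mk_le_aleph0_iff.1 hI.le
  have : Nonempty I := by rw [← Cardinal.mk_ne_zero_iff, hI]; exact aleph0_ne_zero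
  obtain ⟨a, ha, h2, B, hB, hBne, h3⟩ := Pool.Agent.H15.Inj.cc0 (L := lam.ord.ToType)
    (by rw [← succ_aleph0]; exact Order.succ_le_of_lt h1) (by simp) b2 b3
    (fun r hr => hch _ _ r (by simp) hr) F hC
  obtain ⟨i, B', h4, h5, h6⟩ := h a ha (hI ▸ h2) B hB hBne
  exact h3 i B' h4 h5 h6

theorem sc_case (κ lam : Cardinal.{u}) (hκ : Supercompact κ) (hl : lam.IsStrongLimit)
    (hc : lam.ord.cof < κ) (hle : κ ≤ lam) : NoEx lam := by
  classical
  intro S _ hb hS
  by_contra hi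
  push Not at hi
  have h1 : ℵ₀ < lam := lt_of_lt_of_le hκ.1 hle
  obtain ⟨b1, b2, b3⟩ := basics h1.le
  obtain ⟨I, F, C, hI, hC, h⟩ := Pool.Agent.H15.Inj.dit_sl (L := lam.ord.ToType) h1
    (fun μ hμ => hl.isSuccLimit.succ_lt hμ) (by simp) b2 b3 (by simpa using hS) hi (tri hb)
  obtain ⟨U, u1, u2, u3, u4⟩ := hκ.2 (Order.succ lam).ord.ToType
    (by simpa using hle.trans (Order.le_succ lam))
  obtain ⟨j⟩ : Nonempty (I ↪ (Order.succ lam).ord.ToType) := by
    rw [← Cardinal.le_def, hI]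
    simpa using (Ordinal.cof_ord_le lam).trans (Order.le_succ lam)
  obtain ⟨γ, hγ⟩ := Pool.Agent.H15.Inj.bdd (x := range j) (lt_of_le_of_lt Cardinal.mk_range_le
    (lt_of_le_of_lt (hI ▸ Ordinal.cof_ord_le lam) b3))
  have : Nonempty I := by
    rw [← Cardinal.mk_ne_zero_iff, hI, Ordinal.cof_ne_zero]
    exact fun e => (aleph0_pos.trans h1).ne' (Cardinal.ord_eq_zero.1 e)
  have hC' : IsClub (C ∩ Ici γ) := by
    refine ⟨fun d hd hne hdir a ha => ⟨hC.dirSupClosed (hd.trans inter_subset_left) hne hdir ha, ?_⟩,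
      fun x => ?_⟩
    · obtain ⟨y, hy⟩ := hne
      exact le_trans (hd hy).2 (ha.1 hy)
    · obtain ⟨y, hy, hxy⟩ := hC.isCofinal (max x γ)
      exact ⟨y, ⟨hy, (le_max_right _ _).trans hxy⟩, (le_max_left _ _).trans hxy⟩
  obtain ⟨a, ha, h2, B, hB, h3⟩ := Pool.Agent.H15.Inj.sc_main hl h1.le (by simp)
    (Pool.Agent.H15.Inj.iic_lt h1.le) b2 b3 (by rw [Ordinal.cof_toType]; exact hc) hle U u1 u2 u3 u4
    (fun η => F (Function.invFun j η)) hC'
  rw [Ordinal.cof_toType, ← hI] at h2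
  have hBne : B.Nonempty := by
    rw [nonempty_iff_ne_empty]
    rintro rfl
    have : Nonempty (Iio a) := Order.cof_ne_zero_iff.1 (lt_of_le_of_lt zero_le h2).ne'
    obtain ⟨⟨y, hy⟩⟩ := this
    exact absurd (hB.2.2 (show y ∈ upperBounds ∅ by simp)) (not_le.2 hy)
  obtain ⟨i, B', h4, h5, h6⟩ := h a ha.1 h2 B hB hBne
  refine h3 (j i) (lt_of_lt_of_le (hγ _ ⟨i, rfl⟩) ha.2) B' h4 h5 ?_
  rw [Function.leftInverse_invFun j.injective i]
  exact h6

theorem result :
    (Chang.{u} (ℵ_ Ordinal.omega0) → ∀ (S : Type u) [SemilatticeSup S], Breadth2 S →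
      #S = ℵ_ (Ordinal.omega0 + 1) → ∃ a : S, ℵ_ Ordinal.omega0 ≤ #(Iic a)) ∧
    (∀ lam : Cardinal.{u}, ℵ₀ < lam → lam.ord.cof = ℵ₀ → Chang lam → NoEx lam) ∧
    (∀ κ lam : Cardinal.{u}, Supercompact κ → lam.IsStrongLimit → lam.ord.cof < κ → κ ≤ lam →
      NoEx lam) := by
  refine ⟨fun h S _ hb hS => chang_case _ ?_ ?_ h S hb ?_, chang_case, sc_case⟩
  · rw [← aleph_zero]; exact aleph_lt_aleph.2 Ordinal.omega0_pos
  · rw [ord_aleph, Ordinal.cof_omega Ordinal.isSuccLimit_omega0, Ordinal.cof_omega0]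
  · rw [hS, aleph_add_one]

end Pool.Agent.Results.MP_537c7a_lc.NoLadder
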